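import Pool.Agent.N662.SE.Stm

set_option autoImplicit false

/-!
# Part RATE: limit and rate from superadditivity, doubling and convexity
-/

open MeasureTheory ProbabilityTheory Filter Topology

namespace Pool.Agent.N353.SE.Rate

open Pool.Agent.N662.SE

/-- `2^(-1/2)` -/
noncomputable def rt : ℝ := 1 / Real.sqrt 2

theorem rt_pos : 0 < rt := by unfold rt; positivity

theorem rt_lt_one : rt < 1 := by
  unfold rt
  rw [div_lt_one (by positivity)]
  exact Real.lt_sqrt_of_sq_lt (by norm_num)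

theorem rt_sq : rt * rt = 1 / 2 := by
  unfold rt
  rw [div_mul_div_comm, Real.mul_self_sqrt (by norm_num)]
  norm_num

/-- the constant of the doubling argument -/
noncomputable def cS : ℝ := ∑' j : ℕ, ((j : ℝ) + 1) * rt ^ j

theorem summ : Summable fun j : ℕ => ((j : ℝ) + 1) * rt ^ j := by
  have h1 : Summable fun j : ℕ => (j : ℝ) ^ 1 * rt ^ j :=
    summable_pow_mul_geometric_of_norm_lt_one 1 (by
      rw [Real.norm_of_nonneg rt_pos.le]
      exact rt_lt_one)
  have h2 : Summable fun j : ℕ => rt ^ j := summable_geometric_of_lt_one rt_pos.le rt_lt_one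
  refine (h1.add h2).congr fun j => ?_
  ring

theorem sum_le (k : ℕ) : ∑ j ∈ Finset.range k, ((j : ℝ) + 1) * rt ^ j ≤ cS :=
  summ.sum_le_tsum _ fun j _ => by
    have := rt_pos
    positivity

theorem cS_nonneg : 0 ≤ cS := by
  have := sum_le 0
  simpa using this

section abs

variable {F : ℕ → ℝ} {C : ℝ}

theorem iter (hC : 0 ≤ C)
    (hd : ∀ m, 1 ≤ m → F (2 * m) ≤ 2 * F m + C * Real.sqrt m * Real.log (m + 1)) (m : ℕ)
    (hm : 1 ≤ m) (k : ℕ) : F (2 ^ k * m) ≤
      2 ^ k * (F m + C / 2 * (∑ j ∈ Finset.range k, ((j : ℝ) + 1) * rt ^ j) *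
        (Real.sqrt m * Real.log (m + 1))) := by
  induction k with
  | zero => simp
  | succ k ih =>
    have h1 := hd (2 ^ k * m) (Nat.one_le_iff_ne_zero.2 (by positivity))
    have hm' : (1 : ℝ) ≤ m := by exact_mod_cast hm
    have hlm : 0 ≤ Real.log (m + 1) := Real.log_nonneg (by linarith)
    have h2 : Real.log (((2 ^ k * m : ℕ) : ℝ) + 1) ≤ (k + 1) * Real.log (m + 1) := by
      have h3 : (((2 ^ k * m : ℕ) : ℝ) + 1) ≤ ((m : ℝ) + 1) ^ (k + 1) := by
        have h4 : 2 ^ k * m + 1 ≤ (m + 1) ^ (k + 1) := by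
          have h5 : 2 ^ k ≤ (m + 1) ^ k := Nat.pow_le_pow_left (by omega) k
          have h6 : 1 ≤ (m + 1) ^ k := Nat.one_le_pow _ _ (by omega)
          calc 2 ^ k * m + 1 ≤ (m + 1) ^ k * m + (m + 1) ^ k := by gcongr
            _ = (m + 1) ^ (k + 1) := by ring
        exact_mod_cast h4
      calc Real.log (((2 ^ k * m : ℕ) : ℝ) + 1) ≤ Real.log (((m : ℝ) + 1) ^ (k + 1)) :=
            Real.log_le_log (by positivity) h3
        _ = (k + 1) * Real.log (m + 1) := by
            rw [Real.log_pow]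
            push_cast
            ring
    have h3 : Real.sqrt ((2 ^ k * m : ℕ) : ℝ) = 2 ^ k * rt ^ k * Real.sqrt m := by
      have h4 : ((2 ^ k * m : ℕ) : ℝ) = (2 ^ k * rt ^ k * Real.sqrt m) ^ 2 := by
        rw [mul_pow, mul_pow, Real.sq_sqrt (by positivity), ← pow_mul, mul_comm k 2, pow_mul,
          ← pow_mul rt, mul_comm k 2, pow_mul rt, sq rt, rt_sq]
        push_cast
        rw [← mul_pow]
        norm_num
      rw [h4, Real.sqrt_sq]
      have := rt_pos
      positivity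
    have h4 : C * Real.sqrt ((2 ^ k * m : ℕ) : ℝ) * Real.log (((2 ^ k * m : ℕ) : ℝ) + 1) ≤
        C * (2 ^ k * rt ^ k * Real.sqrt m) * ((k + 1) * Real.log (m + 1)) := by
      rw [h3]
      have := rt_pos
      gcongr
    have h5 : 2 ^ (k + 1) * m = 2 * (2 ^ k * m) := by ring
    rw [h5, Finset.sum_range_succ]
    calc F (2 * (2 ^ k * m)) ≤ 2 * F (2 ^ k * m) +
          C * Real.sqrt ((2 ^ k * m : ℕ) : ℝ) * Real.log (((2 ^ k * m : ℕ) : ℝ) + 1) := h1
      _ ≤ 2 * (2 ^ k * (F m + C / 2 * (∑ j ∈ Finset.range k, ((j : ℝ) + 1) * rt ^ j) *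
        (Real.sqrt m * Real.log (m + 1)))) +
        C * (2 ^ k * rt ^ k * Real.sqrt m) * ((k + 1) * Real.log (m + 1)) := by
          gcongr
      _ = _ := by ring

theorem iter' (hC : 0 ≤ C)
    (hd : ∀ m, 1 ≤ m → F (2 * m) ≤ 2 * F m + C * Real.sqrt m * Real.log (m + 1)) (m : ℕ)
    (hm : 1 ≤ m) (k : ℕ) : F (2 ^ k * m) ≤
      2 ^ k * (F m + C / 2 * cS * (Real.sqrt m * Real.log (m + 1))) := by
  refine (iter hC hd m hm k).trans ?_
  have hm' : (1 : ℝ) ≤ m := by exact_mod_cast hm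
  have hlm : 0 ≤ Real.log (m + 1) := Real.log_nonneg (by linarith)
  have := sum_le k
  gcongr

theorem mul_le (h0 : F 0 = 0) (hs : ∀ m n, F m + F n ≤ F (m + n)) (n : ℕ) :
    (n : ℝ) * F 1 ≤ F n := by
  induction n with
  | zero => simp [h0]
  | succ n ih =>
    have := hs n 1
    push_cast
    linarith

theorem bdd (hC : 0 ≤ C) (h0 : F 0 = 0) (hs : ∀ m n, F m + F n ≤ F (m + n))
    (hd : ∀ m, 1 ≤ m → F (2 * m) ≤ 2 * F m + C * Real.sqrt m * Real.log (m + 1)) :
    BddBelow (Set.range fun n : ℕ => (- F n) / n) := by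
  refine ⟨-(|F 1| + 2 * (C / 2 * cS * (Real.sqrt 1 * Real.log (1 + 1)))), ?_⟩
  rintro x ⟨n, rfl⟩
  simp only
  have hD : 0 ≤ C / 2 * cS * (Real.sqrt 1 * Real.log (1 + 1)) := by
    have := cS_nonneg
    have : 0 ≤ Real.log (1 + 1) := Real.log_nonneg (by norm_num)
    positivity
  set D := C / 2 * cS * (Real.sqrt 1 * Real.log (1 + 1)) with hDd
  rcases Nat.eq_zero_or_pos n with rfl | hn
  · simp
    have := abs_nonneg (F 1)
    linarith
  · obtain ⟨k, hk1, hk2⟩ : ∃ k : ℕ, n ≤ 2 ^ k ∧ 2 ^ k ≤ 2 * n := by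
      refine ⟨Nat.log 2 n + 1, (Nat.lt_pow_succ_log_self (by norm_num) n).le, ?_⟩
      rw [pow_succ, mul_comm]
      exact Nat.mul_le_mul_left 2 (Nat.pow_log_le_self 2 (by omega))
    have h1 := iter' hC hd 1 le_rfl k
    rw [mul_one] at h1
    push_cast at h1
    rw [← hDd] at h1
    obtain ⟨l, hl⟩ := Nat.exists_eq_add_of_le hk1
    have h2 := hs n l
    rw [← hl] at h2
    have h3 := mul_le h0 hs l
    have hlR : (2 : ℝ) ^ k = n + l := by exact_mod_cast hl
    have hkR : (2 : ℝ) ^ k ≤ 2 * n := by exact_mod_cast hk2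
    have hn' : (0 : ℝ) < n := by exact_mod_cast hn
    rw [neg_div, neg_le_neg_iff, div_le_iff₀ hn']
    have h4 : F n ≤ n * F 1 + 2 ^ k * D := by
      have : 2 ^ k * (F 1 + D) = n * F 1 + l * F 1 + 2 ^ k * D := by
        rw [mul_add, hlR]
        ring
      linarith
    have h5 : 2 ^ k * D ≤ 2 * n * D := mul_le_mul_of_nonneg_right hkR hD
    have h6 : n * F 1 ≤ n * |F 1| := mul_le_mul_of_nonneg_left (le_abs_self _) hn'.le
    linarith

/-- the limit -/
theorem main_abs (hC : 0 ≤ C) (h0 : F 0 = 0) (hs : ∀ m n, F m + F n ≤ F (m + n))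
    (hd : ∀ m, 1 ≤ m → F (2 * m) ≤ 2 * F m + C * Real.sqrt m * Real.log (m + 1)) :
    ∃ φ : ℝ, Tendsto (fun n : ℕ => F n / n) atTop (𝓝 φ) ∧ ∀ n : ℕ, F n ≤ n * φ ∧
      n * φ ≤ F n + C / 2 * cS * Real.sqrt n * Real.log (n + 1) := by
  have hsub : Subadditive fun n => - F n := fun m n => by
    have := hs m n
    linarith
  have hb := bdd hC h0 hs hd
  have hlim := hsub.tendsto_lim hb
  have hlim' : Tendsto (fun n : ℕ => F n / n) atTop (𝓝 (- hsub.lim)) := by
    refine hlim.neg.congr fun n => ?_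
    rw [neg_div, neg_neg]
  refine ⟨- hsub.lim, hlim', fun n => ?_⟩
  rcases Nat.eq_zero_or_pos n with rfl | hn
  · simp [h0]
  have hn' : (0 : ℝ) < n := by exact_mod_cast hn
  constructor
  · have h1 := hsub.lim_le_div hb (by omega : n ≠ 0)
    rw [neg_div, le_neg] at h1
    rw [div_le_iff₀ hn'] at h1
    linarith
  · have h1 : Tendsto (fun k : ℕ => 2 ^ k * n) atTop atTop := by
      apply tendsto_atTop_mono (f := fun k : ℕ => k)
      · intro k
        have := (Nat.lt_two_pow_self (n := k)).le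
        calc k ≤ 2 ^ k := this
          _ = 2 ^ k * 1 := (mul_one _).symm
          _ ≤ 2 ^ k * n := Nat.mul_le_mul_left _ hn
      · exact tendsto_id
    have h2 := hlim'.comp h1
    have h3 : - hsub.lim ≤ (F n + C / 2 * cS * (Real.sqrt n * Real.log (n + 1))) / n := by
      refine le_of_tendsto' h2 fun k => ?_
      have h4 := iter' hC hd n hn k
      simp only [Function.comp]
      rw [div_le_div_iff₀ (by positivity) hn']
      push_cast
      calc F (2 ^ k * n) * n ≤
            (2 ^ k * (F n + C / 2 * cS * (Real.sqrt n * Real.log (n + 1)))) * n := by gcongr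
        _ = _ := by ring
    rw [le_div_iff₀ hn'] at h3
    linarith

end abs

theorem free_zero {d : ℕ} {Ω : Type} [MeasurableSpace Ω] (P : Measure Ω)
    (ω : ℕ → (Fin d → ℤ) → Ω → ℝ) (β : ℝ) (h : Fin d → ℝ) : free P ω β h 0 = 0 := by
  have h1 : ∀ x, lw ω β h 0 0 0 x = 0 := by
    intro x
    simp [lw, part, TH967.DP.energy, TH967.DP.pos]
  unfold free
  simp [h1]

theorem main (hs : S_SUP) (hd : S_DBL) (hv : S_CVX) : S_RATE := by
  intro d hd1 Ω _ P _ ω hω hexp β
  obtain ⟨C, hC⟩ := hd d hd1 Ω P ω hω hexp β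
  have hdbl : ∀ (h : Fin d → ℝ) (m : ℕ), 1 ≤ m → free P ω β h (2 * m) ≤
      2 * free P ω β h m + max C 0 * Real.sqrt m * Real.log (m + 1) := by
    intro h m hm
    refine (hC h m hm).trans ?_
    have hlm : 0 ≤ Real.log (m + 1) := Real.log_nonneg (by
      have : (0 : ℝ) ≤ m := by positivity
      linarith)
    have := le_max_left C 0
    gcongr
  have key : ∀ h : Fin d → ℝ, ∃ φ : ℝ,
      Tendsto (fun n : ℕ => free P ω β h n / n) atTop (𝓝 φ) ∧ ∀ n : ℕ, free P ω β h n ≤ n * φ ∧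
      n * φ ≤ free P ω β h n + max C 0 / 2 * cS * Real.sqrt n * Real.log (n + 1) := fun h =>
    main_abs (le_max_right C 0) (free_zero P ω β h) (hs d hd1 Ω P ω hω hexp β h) (hdbl h)
  choose φ hφ1 hφ2 using key
  refine ⟨φ, max C 0 / 2 * cS, ⟨convex_univ, ?_⟩, fun h n => hφ2 h n⟩
  intro x _ y _ a b ha hb hab
  have h1 : Tendsto (fun n : ℕ => a • (free P ω β x n / n) + b • (free P ω β y n / n)) atTop
      (𝓝 (a • φ x + b • φ y)) := ((hφ1 x).const_smul a).add ((hφ1 y).const_smul b)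
  refine le_of_tendsto_of_tendsto' (hφ1 (a • x + b • y)) h1 fun n => ?_
  have h2 := (hv d hd1 Ω P ω hω hexp β n).2 (Set.mem_univ x) (Set.mem_univ y) ha hb hab
  simp only [smul_eq_mul] at h2 ⊢
  have hn : (0 : ℝ) ≤ n := by positivity
  calc free P ω β (a • x + b • y) n / n ≤
        (a * free P ω β x n + b * free P ω β y n) / n := by gcongr
    _ = _ := by ring

end Pool.Agent.N353.SE.Rate
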