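import Pool.Agent.N662.SE.Stm

set_option autoImplicit false

/-!
# Part SELD: pairs at a prescribed distance in a set of positive outer measure
-/

open MeasureTheory ProbabilityTheory Filter Topology

namespace Pool.Agent.N353.SE.Seld

open Pool.Agent.N662.SE

/-- the sup norm squared is at most the sum of the squares -/
theorem norm_sq_le {d : ℕ} (x : Fin d → ℝ) : ‖x‖ ^ 2 ≤ ∑ k, x k ^ 2 := by
  have h0 : 0 ≤ ∑ k, x k ^ 2 := Finset.sum_nonneg fun k _ => sq_nonneg _
  have h1 : ‖x‖ ≤ Real.sqrt (∑ k, x k ^ 2) := by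
    rw [pi_norm_le_iff_of_nonneg (Real.sqrt_nonneg _)]
    intro k
    rw [Real.norm_eq_abs]
    apply Real.abs_le_sqrt
    exact Finset.single_le_sum (f := fun k => x k ^ 2) (fun k _ => sq_nonneg _) (Finset.mem_univ k)
  calc ‖x‖ ^ 2 ≤ (Real.sqrt (∑ k, x k ^ 2)) ^ 2 := by gcongr
    _ = _ := Real.sq_sqrt h0

theorem sum_sq_le {d : ℕ} (x : Fin d → ℝ) : ∑ k, x k ^ 2 ≤ d * ‖x‖ ^ 2 := by
  calc ∑ k, x k ^ 2 ≤ ∑ _k : Fin d, ‖x‖ ^ 2 := by
        apply Finset.sum_le_sum
        intro k _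
        have h1 := norm_le_pi_norm x k
        rw [Real.norm_eq_abs] at h1
        rw [← sq_abs]
        gcongr
    _ = d * ‖x‖ ^ 2 := by simp

/-- separated points stay separated after adding a monotone map -/
theorem sep {d : ℕ} (hd : 1 ≤ d) {L r : ℝ} (hL : 1 ≤ L) (hr : 0 < r) (a b : Fin d → ℝ)
    (hm : 0 ≤ ∑ k, b k * a k) (ha : r ≤ ‖a‖) (hab : ‖a‖ ≤ L * r → L * ‖a‖ < ‖b‖) :
    L * r / Real.sqrt d < ‖a + b‖ := by
  have hd' : (0 : ℝ) < d := by exact_mod_cast hd
  have h1 : (L * r) ^ 2 < max (‖a‖ ^ 2) (‖b‖ ^ 2) := by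
    rcases le_or_gt ‖a‖ (L * r) with h | h
    · have h2 := hab h
      have h3 : L * r < ‖b‖ := lt_of_le_of_lt (by gcongr) h2
      exact lt_max_of_lt_right (by gcongr)
    · exact lt_max_of_lt_left (by gcongr)
  have h2 : ∑ k, (a + b) k ^ 2 = ∑ k, a k ^ 2 + ∑ k, b k ^ 2 + 2 * ∑ k, b k * a k := by
    rw [Finset.mul_sum, ← Finset.sum_add_distrib, ← Finset.sum_add_distrib]
    refine Finset.sum_congr rfl fun k _ => ?_
    simp only [Pi.add_apply]
    ring
  have h3 := norm_sq_le a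
  have h4 := norm_sq_le b
  have h5 := sum_sq_le (a + b)
  have h6 : 0 ≤ ∑ k, a k ^ 2 := Finset.sum_nonneg fun k _ => sq_nonneg _
  have h7 : 0 ≤ ∑ k, b k ^ 2 := Finset.sum_nonneg fun k _ => sq_nonneg _
  have h8 : (L * r) ^ 2 < d * ‖a + b‖ ^ 2 := by
    refine lt_of_lt_of_le h1 (max_le ?_ ?_) <;> linarith
  have h9 : (L * r / Real.sqrt d) ^ 2 < ‖a + b‖ ^ 2 := by
    rw [div_pow, Real.sq_sqrt hd'.le, div_lt_iff₀ hd']
    linarith
  exact lt_of_pow_lt_pow_left₀ 2 (norm_nonneg _) h9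

theorem claim {d : ℕ} (hd : 1 ≤ d) (D : Set (Fin d → ℝ)) (h : (Fin d → ℝ) → (Fin d → ℝ)) (N : ℕ)
    (hD1 : ∀ v ∈ D, ‖v‖ ≤ N) (hD2 : ∀ v ∈ D, ‖h v‖ ≤ N)
    (hmono : ∀ v ∈ D, ∀ v' ∈ D, 0 ≤ ∑ k, (h v' k - h v k) * (v' k - v k))
    {e : ℝ} (he0 : 0 < e) (he1 : e ≤ 1) (hvol : ENNReal.ofReal e < volume D)
    (L : ℝ) (hL : L = 2 * Real.sqrt d * (4 * N + 1) / e) {r : ℝ} (hr : 0 < r)
    (hLr : L * r / Real.sqrt d ≤ 1) :
    ∃ v ∈ D, ∃ v' ∈ D, r ≤ ‖v' - v‖ ∧ ‖v' - v‖ ≤ L * r ∧ ‖h v' - h v‖ ≤ L * ‖v' - v‖ := by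
  by_contra hcon
  push Not at hcon
  have hd' : (1 : ℝ) ≤ d := by exact_mod_cast hd
  have hsd : 1 ≤ Real.sqrt d := by
    rw [Real.one_le_sqrt]
    exact hd'
  have hN0 : (0 : ℝ) ≤ N := by positivity
  have hL1 : 1 ≤ L := by
    rw [hL, le_div_iff₀ he0]
    nlinarith
  set q : ℝ := L * r / Real.sqrt d / 2 with hq
  have hq0 : 0 < q := by positivity
  -- the bound for separated sets
  have hbound : ∀ S : Finset (Fin d → ℝ), (∀ v ∈ S, v ∈ D) →
      (∀ v ∈ S, ∀ v' ∈ S, v ≠ v' → r ≤ ‖v' - v‖) → (S.card : ℝ) * (2 * q) ^ d ≤ (4 * N + 1) ^ d := by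
    intro S hS hsep
    have hdisj : (S : Set (Fin d → ℝ)).PairwiseDisjoint fun v => Metric.ball (v + h v) q := by
      intro v hv v' hv' hne
      apply Metric.ball_disjoint_ball
      have h1 := sep hd hL1 hr (v' - v) (h v' - h v) (by
          simpa using hmono v (hS v hv) v' (hS v' hv')) (hsep v hv v' hv' hne)
          (hcon v (hS v hv) v' (hS v' hv') (hsep v hv v' hv' hne))
      rw [dist_comm, dist_eq_norm]
      have h2 : v' + h v' - (v + h v) = v' - v + (h v' - h v) := by abel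
      rw [h2]
      have h3 : q + q = L * r / Real.sqrt d := by rw [hq]; ring
      rw [h3]
      exact h1.le
    have h1 : volume (⋃ v ∈ S, Metric.ball (v + h v) q) ≤
        volume (Metric.closedBall (0 : Fin d → ℝ) (2 * N + q)) := by
      apply measure_mono
      intro x hx
      simp only [Set.mem_iUnion] at hx
      obtain ⟨v, hv, hx⟩ := hx
      rw [Metric.mem_ball, dist_eq_norm] at hx
      rw [mem_closedBall_zero_iff]
      have h2 := hD1 v (hS v hv)
      have h3 := hD2 v (hS v hv)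
      calc ‖x‖ = ‖(x - (v + h v)) + v + h v‖ := by congr 1; abel
        _ ≤ ‖x - (v + h v)‖ + ‖v‖ + ‖h v‖ := norm_add₃_le
        _ ≤ 2 * N + q := by linarith
    rw [measure_biUnion_finset hdisj (fun v _ => Metric.isOpen_ball.measurableSet)] at h1
    simp only [Real.volume_pi_ball _ hq0, Fintype.card_fin, Finset.sum_const, nsmul_eq_mul] at h1
    rw [Real.volume_pi_closedBall _ (by positivity), Fintype.card_fin] at h1
    have h2 : ((S.card : ℕ) : ENNReal) = ENNReal.ofReal (S.card : ℝ) := by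
      rw [ENNReal.ofReal_natCast]
    rw [h2, ← ENNReal.ofReal_mul (by positivity), ENNReal.ofReal_le_ofReal_iff (by positivity)] at h1
    refine h1.trans ?_
    have h3 : 2 * (2 * (N : ℝ) + q) ≤ 4 * N + 1 := by
      have : 2 * q ≤ 1 := by
        calc 2 * q = L * r / Real.sqrt d := by rw [hq]; ring
          _ ≤ 1 := hLr
      linarith
    gcongr
  -- a maximal separated set
  obtain ⟨S, hS, hsep, hcov⟩ : ∃ S : Finset (Fin d → ℝ), (∀ v ∈ S, v ∈ D) ∧
      (∀ v ∈ S, ∀ v' ∈ S, v ≠ v' → r ≤ ‖v' - v‖) ∧ ∀ v ∈ D, ∃ w ∈ S, ‖v - w‖ < r := by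
    classical
    by_contra hno
    push Not at hno
    have hall : ∀ n : ℕ, ∃ S : Finset (Fin d → ℝ), S.card = n ∧ (∀ v ∈ S, v ∈ D) ∧
        (∀ v ∈ S, ∀ v' ∈ S, v ≠ v' → r ≤ ‖v' - v‖) := by
      intro n
      induction n with
      | zero => exact ⟨∅, by simp⟩
      | succ n ih =>
        obtain ⟨S, hc, hS, hsep⟩ := ih
        obtain ⟨v, hv, hfar⟩ := hno S hS hsep
        have hvS : v ∉ S := by
          intro hmem
          have := hfar v hmem
          rw [sub_self, norm_zero] at this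
          linarith
        refine ⟨insert v S, by rw [Finset.card_insert_of_notMem hvS, hc], ?_, ?_⟩
        · intro w hw
          rcases Finset.mem_insert.1 hw with rfl | hw
          · exact hv
          · exact hS w hw
        · intro w hw w' hw' hne
          rcases Finset.mem_insert.1 hw with h1 | h1 <;>
            rcases Finset.mem_insert.1 hw' with h2 | h2
          · exact absurd (h1.trans h2.symm) hne
          · rw [norm_sub_rev, h1]
            exact hfar w' h2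
          · rw [h2]
            exact hfar w h1
          · exact hsep w h1 w' h2 hne
    obtain ⟨n, hn⟩ := exists_nat_gt ((4 * (N : ℝ) + 1) ^ d / (2 * q) ^ d)
    obtain ⟨S, hc, hS, hsep⟩ := hall n
    have h1 := hbound S hS hsep
    rw [hc] at h1
    rw [div_lt_iff₀ (by positivity)] at hn
    linarith
  have h1 : volume D ≤ ENNReal.ofReal ((S.card : ℝ) * (2 * r) ^ d) := by
    calc volume D ≤ volume (⋃ w ∈ S, Metric.ball w r) := by
          apply measure_mono
          intro v hv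
          obtain ⟨w, hw, hvw⟩ := hcov v hv
          simp only [Set.mem_iUnion]
          exact ⟨w, hw, by rwa [Metric.mem_ball, dist_eq_norm]⟩
      _ ≤ ∑ w ∈ S, volume (Metric.ball w r) := measure_biUnion_finset_le S _
      _ = ENNReal.ofReal ((S.card : ℝ) * (2 * r) ^ d) := by
          simp only [Real.volume_pi_ball _ hr, Fintype.card_fin, Finset.sum_const, nsmul_eq_mul]
          rw [ENNReal.ofReal_mul (by positivity), ENNReal.ofReal_natCast]
  have h2 := hbound S hS hsep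
  have h3 : (S.card : ℝ) * (2 * r) ^ d ≤ e := by
    have h4 : (S.card : ℝ) ≤ (4 * N + 1) ^ d / (2 * q) ^ d := by
      rw [le_div_iff₀ (by positivity)]
      exact h2
    calc (S.card : ℝ) * (2 * r) ^ d ≤ (4 * N + 1) ^ d / (2 * q) ^ d * (2 * r) ^ d := by gcongr
      _ = ((4 * N + 1) / (2 * q) * (2 * r)) ^ d := by rw [← div_pow, ← mul_pow]
      _ = e ^ d := by
          congr 1
          have h5 : 2 * q = L * r / Real.sqrt d := by rw [hq]; ring
          have h6 : Real.sqrt d ≠ 0 := by positivity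
          have h7 : (4 * (N : ℝ) + 1) ≠ 0 := by positivity
          rw [h5, hL]
          field_simp
      _ ≤ e ^ 1 := pow_le_pow_of_le_one he0.le he1 hd
      _ = e := pow_one e
  have h4 := (hvol.trans_le h1)
  rw [ENNReal.ofReal_lt_ofReal_iff_of_nonneg he0.le] at h4
  linarith

theorem main : S_SELD := by
  intro d hd B hB h hmono Q hQ r hr hr0
  let D : ℕ → Set (Fin d → ℝ) := fun N => {v | v ∈ B ∧ ‖v‖ ≤ N ∧ ‖h v‖ ≤ N ∧ ∀ n, N ≤ n → Q v n}
  obtain ⟨N, hN⟩ : ∃ N, volume (D N) ≠ 0 := by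
    by_contra hno
    push Not at hno
    apply hB
    refine measure_mono_null ?_ (measure_iUnion_null hno)
    intro v hv
    obtain ⟨n0, hn0⟩ := eventually_atTop.1 (hQ v hv)
    obtain ⟨a, ha⟩ := exists_nat_ge ‖v‖
    obtain ⟨b, hb⟩ := exists_nat_ge ‖h v‖
    rw [Set.mem_iUnion]
    refine ⟨max n0 (max a b), hv, ha.trans ?_, hb.trans ?_, fun n hn => hn0 n ?_⟩
    · exact_mod_cast (le_max_left a b).trans (le_max_right _ _)
    · exact_mod_cast (le_max_right a b).trans (le_max_right _ _)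
    · exact (le_max_left _ _).trans hn
  obtain ⟨s, hs0, hs⟩ := ENNReal.lt_iff_exists_nnreal_btwn.1 (pos_iff_ne_zero.2 hN)
  have hs0' : (0 : ℝ) < s := by exact_mod_cast hs0
  have hvol : ENNReal.ofReal (min 1 (s : ℝ)) < volume (D N) := by
    refine lt_of_le_of_lt ?_ hs
    calc ENNReal.ofReal (min 1 (s : ℝ)) ≤ ENNReal.ofReal (s : ℝ) :=
          ENNReal.ofReal_le_ofReal (min_le_right _ _)
      _ = s := ENNReal.ofReal_coe_nnreal
  have hd' : (0 : ℝ) < d := by exact_mod_cast hd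
  set L : ℝ := 2 * Real.sqrt d * (4 * N + 1) / min 1 (s : ℝ) with hL
  have hLpos : 0 < L := by positivity
  refine ⟨L, L, ?_⟩
  have hev : ∀ᶠ n in atTop, r n < Real.sqrt d / L := hr0.eventually (gt_mem_nhds (by positivity))
  filter_upwards [hev, eventually_ge_atTop N] with n hn hnN
  obtain ⟨v, hv, v', hv', h1, h2, h3⟩ := claim hd (D N) h N (fun v hv => hv.2.1)
    (fun v hv => hv.2.2.1) (fun v hv v' hv' => hmono v hv.1 v' hv'.1) (by positivity)
    (min_le_left _ _) hvol L hL (hr n) (by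
      rw [div_le_one (by positivity)]
      rw [lt_div_iff₀ hLpos] at hn
      linarith)
  exact ⟨v, hv.1, v', hv'.1, h1, h2, h3, hv.2.2.2 n hnN, hv'.2.2.2 n hnN⟩

end Pool.Agent.N353.SE.Seld
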